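import Mathlib

/-!
# Every finite poset embeds in a jump-critical poset of the same length

For a finite nonempty poset `P` replace every element by a three-element antichain.  The
resulting poset is jump-critical, contains `P` and has the same length as `P`.
-/

namespace Pool.Agent.Results.MP_b5825f_co.EmbedsInJumpCritical

open Classical

section Defs

variable {α : Type*} [PartialOrder α]

/-- `l` lists the elements of the poset `α` in the order of a linear extension. -/
def IsLinearExtension (l : List α) : Prop :=
  l.Nodup ∧ (∀ x, x ∈ l) ∧ l.Pairwise (fun x y => ¬ y < x)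

/-- The number of consecutive pairs `(x, y)` of the list such that `y` does not cover `x`. -/
noncomputable def jumps (l : List α) : ℕ :=
  (l.zip l.tail).countP (fun q => ¬ (q.1 ⋖ q.2))

variable (α)

/-- The jump number of a finite poset. -/
noncomputable def jumpNumber : ℕ :=
  sInf {k | ∃ l : List α, IsLinearExtension l ∧ jumps l = k}

/-- Jump-critical posets: the jump number is at least one, and it drops whenever an element
is removed. -/
def JumpCritical : Prop :=
  1 ≤ jumpNumber α ∧ ∀ x : α, jumpNumber {y : α // y ≠ x} < jumpNumber α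

end Defs

section Aux

variable {α : Type*} [PartialOrder α]

/-- Number of consecutive pairs that are not increasing. -/
noncomputable def jlt : List α → ℕ
  | [] => 0
  | [_] => 0
  | x :: y :: l => (if x < y then 0 else 1) + jlt (y :: l)

theorem jumps_nil : jumps ([] : List α) = 0 := by simp [jumps]

theorem jumps_single (x : α) : jumps [x] = 0 := by simp [jumps]

theorem jumps_cons_cons (x y : α) (l : List α) :
    jumps (x :: y :: l) = (if x ⋖ y then 0 else 1) + jumps (y :: l) := by
  unfold jumps
  simp only [List.tail_cons, List.zip_cons_cons, List.countP_cons]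
  by_cases h : x ⋖ y <;> simp [h, add_comm]

theorem jlt_append (A : List α) (u : α) (l : List α) :
    jlt (A ++ u :: l) = jlt (A ++ [u]) + jlt (u :: l) := by
  induction A with
  | nil => simp [jlt]
  | cons a A ih =>
    cases A with
    | nil => simp [jlt]
    | cons b A =>
      simp only [List.cons_append, jlt] at ih ⊢
      rw [ih]; ring

/-- On a suffix of a linear extension the two counts agree. -/
theorem jumps_eq_aux (L : List α) (hL : IsLinearExtension L) :
    ∀ (l A : List α), L = A ++ l → jumps l = jlt l := by
  intro l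
  induction l with
  | nil => intro A _; simp [jumps_nil, jlt]
  | cons x l ih =>
    intro A hA
    cases l with
    | nil => simp [jumps_single, jlt]
    | cons y l =>
      have h1 := ih (A ++ [x]) (by simp [hA])
      rw [jumps_cons_cons, h1]
      simp only [jlt]
      congr 1
      have h2 : (x ⋖ y) ↔ x < y := by
        constructor
        · exact fun h => h.lt
        · intro h
          refine ⟨h, ?_⟩
          intro z hxz hzy
          obtain ⟨_, hall, hpw⟩ := hL
          have hz := hall z
          rw [hA] at hz hpw
          rw [List.pairwise_append] at hpw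
          obtain ⟨_, hp2, hp3⟩ := hpw
          rw [List.pairwise_cons, List.pairwise_cons] at hp2
          rcases List.mem_append.mp hz with hz | hz
          · exact hp3 z hz x (by simp) hxz
          · rcases List.mem_cons.mp hz with hz | hz
            · exact absurd hxz (by rw [hz]; exact lt_irrefl _)
            · rcases List.mem_cons.mp hz with hz | hz
              · exact absurd hzy (by rw [hz]; exact lt_irrefl _)
              · exact hp2.2.1 z hz hzy
      by_cases h : x < y
      · rw [if_pos h, if_pos (h2.mpr h)]
      · rw [if_neg h, if_neg (fun h' => h (h2.mp h'))]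

theorem jumps_eq (L : List α) (hL : IsLinearExtension L) : jumps L = jlt L :=
  jumps_eq_aux L hL L [] rfl

theorem jlt_map {β : Type*} [PartialOrder β] (f : α → β) (hf : ∀ a b, f a < f b ↔ a < b) :
    ∀ l : List α, jlt (l.map f) = jlt l
  | [] => rfl
  | [_] => rfl
  | x :: y :: l => by
    have ih := jlt_map f hf (y :: l)
    simp only [List.map_cons, jlt] at ih ⊢
    rw [ih]
    by_cases h : x < y
    · rw [if_pos h, if_pos ((hf x y).mpr h)]
    · rw [if_neg h, if_neg (fun h' => h ((hf x y).mp h'))]

theorem exists_linearExtension (α : Type*) [PartialOrder α] [Fintype α] :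
    ∃ l : List α, IsLinearExtension l := by
  have : Fintype (LinearExtension α) := ‹Fintype α›
  let S : Finset (LinearExtension α) := Finset.univ
  let l : List (LinearExtension α) := S.sort (fun a b => a ≤ b)
  have h1 : l.Nodup := Finset.sort_nodup _ _
  have h2 : ∀ x, x ∈ l := fun x => (Finset.mem_sort _).mpr (Finset.mem_univ x)
  have h3 : l.Pairwise (fun a b => a ≤ b) := Finset.pairwise_sort S (fun a b => a ≤ b)
  refine ⟨@id (List α) l, h1, h2, ?_⟩
  refine List.Pairwise.imp ?_ h3
  intro a b hab hba
  have h4 : toLinearExtension (α := α) b ≤ toLinearExtension a :=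
    toLinearExtension.monotone (le_of_lt hba)
  have h5 : toLinearExtension (α := α) a = toLinearExtension b := le_antisymm hab h4
  exact (ne_of_lt hba) (show (b : α) = a from h5.symm)

theorem jumpNumber_le (l : List α) (hl : IsLinearExtension l) : jumpNumber α ≤ jlt l := by
  rw [← jumps_eq l hl]
  exact Nat.sInf_le ⟨l, hl, rfl⟩

theorem exists_optimal (α : Type*) [PartialOrder α] [Fintype α] :
    ∃ l : List α, IsLinearExtension l ∧ jlt l = jumpNumber α := by
  have hne : {k | ∃ l : List α, IsLinearExtension l ∧ jumps l = k}.Nonempty := by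
    obtain ⟨l, hl⟩ := exists_linearExtension α
    exact ⟨jumps l, l, hl, rfl⟩
  obtain ⟨l, hl, hk⟩ := Nat.sInf_mem hne
  exact ⟨l, hl, by rw [← jumps_eq l hl]; exact hk⟩

/-- Removing an element `x` of a linear extension that has a twin before it and a twin after it
destroys at least one jump. -/
theorem middle_twin (L1 L2 : List α) (x a b : α) (hL : IsLinearExtension (L1 ++ x :: L2))
    (ha : a ∈ L1) (hb : b ∈ L2) (hax : ∀ z, z < x → z < a) (hbx : ∀ z, x < z → b < z) :
    jlt (L1 ++ L2) + 1 ≤ jlt (L1 ++ x :: L2) := by
  obtain ⟨_, _, hpw⟩ := hL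
  rw [List.pairwise_append] at hpw
  obtain ⟨hp1, hp2, hp3⟩ := hpw
  rw [List.pairwise_cons] at hp2
  -- the predecessor
  obtain ⟨A, u, rfl⟩ : ∃ A u, L1 = A ++ [u] := by
    rcases List.eq_nil_or_concat L1 with h | ⟨A, u, h⟩
    · rw [h] at ha; simp at ha
    · exact ⟨A, u, by rw [h, List.concat_eq_append]⟩
  obtain ⟨v, B, rfl⟩ : ∃ v B, L2 = v :: B := by
    cases L2 with
    | nil => simp at hb
    | cons v B => exact ⟨v, B, rfl⟩
  have hu : ¬ u < x := by
    intro h
    have h1 := hax u h
    rw [List.pairwise_append] at hp1
    rcases List.mem_append.mp ha with h2 | h2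
    · exact hp1.2.2 a h2 u (by simp) h1
    · rw [List.mem_singleton] at h2
      rw [h2] at h1
      exact lt_irrefl _ h1
  have hv : ¬ x < v := by
    intro h
    have h1 := hbx v h
    rcases List.mem_cons.mp hb with h2 | h2
    · rw [h2] at h1
      exact lt_irrefl _ h1
    · exact (List.pairwise_cons.mp hp2.2).1 b h2 h1
  have e1 : jlt (A ++ [u] ++ x :: v :: B) = jlt (A ++ [u]) + (1 + (1 + jlt (v :: B))) := by
    have : A ++ [u] ++ x :: v :: B = A ++ u :: (x :: v :: B) := by simp
    rw [this, jlt_append]
    simp only [jlt, if_neg hu, if_neg hv]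
  have e2 : jlt (A ++ [u] ++ v :: B) ≤ jlt (A ++ [u]) + (1 + jlt (v :: B)) := by
    have : A ++ [u] ++ v :: B = A ++ u :: (v :: B) := by simp
    rw [this, jlt_append]
    simp only [jlt]
    split <;> omega
  omega

/-- Restricting a linear extension to the complement of one element. -/
theorem restrict (L1 L2 : List α) (x : α) (hL : IsLinearExtension (L1 ++ x :: L2)) :
    jumpNumber {y : α // y ≠ x} ≤ jlt (L1 ++ L2) := by
  obtain ⟨hnd, hall, hpw⟩ := hL
  have hx : ∀ y ∈ L1 ++ L2, y ≠ x := by
    intro y hy hyx
    subst hyx
    rw [List.nodup_middle] at hnd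
    exact (List.nodup_cons.mp hnd).1 hy
  let l : List {y : α // y ≠ x} := (L1 ++ L2).attachWith (fun y => y ≠ x) hx
  have hmap : l.map Subtype.val = L1 ++ L2 := by
    simp [l]
  have hl : IsLinearExtension l := by
    refine ⟨?_, ?_, ?_⟩
    · have : (l.map Subtype.val).Nodup := by
        rw [hmap]
        rw [List.nodup_middle] at hnd
        exact (List.nodup_cons.mp hnd).2
      exact List.Nodup.of_map _ this
    · rintro ⟨y, hy⟩
      have h1 := hall y
      have h2 : y ∈ l.map Subtype.val := by
        rw [hmap]
        simp only [List.mem_append, List.mem_cons] at h1 ⊢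
        rcases h1 with h1 | h1 | h1
        · exact Or.inl h1
        · exact absurd h1 hy
        · exact Or.inr h1
      obtain ⟨z, hz, hzy⟩ := List.mem_map.mp h2
      have : z = ⟨y, hy⟩ := Subtype.ext hzy
      rw [← this]; exact hz
    · have h1 : (L1 ++ L2).Pairwise (fun a b => ¬ b < a) := by
        refine List.Pairwise.sublist ?_ hpw
        exact List.Sublist.append (List.Sublist.refl _) (List.sublist_cons_self _ _)
      rw [← hmap, List.pairwise_map] at h1
      exact h1
  have := jumpNumber_le l hl
  rw [← jlt_map Subtype.val (fun a b => Iff.rfl) l, hmap] at this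
  exact this

end Aux

/-! ### The construction -/

/-- The poset obtained from `P` by replacing every element by a three-element antichain. -/
@[ext] structure Blowup (P : Type*) where
  /-- the element of `P` -/
  pt : P
  /-- the index of the copy -/
  idx : Fin 3

namespace Blowup

variable {P : Type*} [PartialOrder P]

instance : PartialOrder (Blowup P) where
  le a b := a = b ∨ a.pt < b.pt
  lt a b := a.pt < b.pt
  le_refl a := Or.inl rfl
  le_trans a b c hab hbc := by
    rcases hab with rfl | hab
    · exact hbc
    · rcases hbc with rfl | hbc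
      · exact Or.inr hab
      · exact Or.inr (hab.trans hbc)
  lt_iff_le_not_ge a b := by
    constructor
    · intro h
      refine ⟨Or.inr h, ?_⟩
      rintro (rfl | h')
      · exact lt_irrefl _ h
      · exact lt_irrefl _ (h.trans h')
    · rintro ⟨h1 | h1, h2⟩
      · exact absurd (Or.inl h1.symm) h2
      · exact h1
  le_antisymm a b hab hba := by
    rcases hab with rfl | hab
    · rfl
    · rcases hba with rfl | hba
      · rfl
      · exact absurd (hab.trans hba) (lt_irrefl _)

theorem lt_def (a b : Blowup P) : a < b ↔ a.pt < b.pt := Iff.rfl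

theorem le_def (a b : Blowup P) : a ≤ b ↔ a = b ∨ a.pt < b.pt := Iff.rfl

/-- `Blowup P` is `P × Fin 3` as a set. -/
def equivProd (P : Type*) : Blowup P ≃ P × Fin 3 where
  toFun a := (a.pt, a.idx)
  invFun q := ⟨q.1, q.2⟩
  left_inv _ := rfl
  right_inv _ := rfl

noncomputable instance [Fintype P] : Fintype (Blowup P) := Fintype.ofEquiv _ (equivProd P).symm

theorem key [Fintype P] (x : Blowup P) :
    jumpNumber {y : Blowup P // y ≠ x} + 1 ≤ jumpNumber (Blowup P) := by
  obtain ⟨L, hL, hopt⟩ := exists_optimal (Blowup P)
  -- the three twins in the order of `L`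
  obtain ⟨t1, t2, t3, hF⟩ : ∃ t1 t2 t3, L.filter (fun z => z.pt = x.pt) = [t1, t2, t3] := by
    rw [← List.length_eq_three]
    have h1 : (L.filter (fun z => z.pt = x.pt)).Nodup := hL.1.filter _
    rw [← List.toFinset_card_of_nodup h1]
    have h2 : (L.filter (fun z => z.pt = x.pt)).toFinset =
        Finset.univ.image (fun i : Fin 3 => (⟨x.pt, i⟩ : Blowup P)) := by
      ext z
      simp only [List.mem_toFinset, List.mem_filter, decide_eq_true_eq, Finset.mem_image,
        Finset.mem_univ, true_and]
      constructor
      · rintro ⟨_, hz⟩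
        exact ⟨z.idx, by rw [← hz]⟩
      · rintro ⟨i, rfl⟩
        exact ⟨hL.2.1 _, rfl⟩
    rw [h2, Finset.card_image_of_injective]
    · simp
    · intro i j hij
      exact congrArg Blowup.idx hij
  have hsub : [t1, t2, t3].Sublist L := by rw [← hF]; exact List.filter_sublist
  have hpt : ∀ t ∈ [t1, t2, t3], t.pt = x.pt := by
    intro t ht
    rw [← hF] at ht
    simpa using (List.mem_filter.mp ht).2
  have p1 : t1.pt = x.pt := hpt t1 (by simp)
  have p2 : t2.pt = x.pt := hpt t2 (by simp)
  have p3 : t3.pt = x.pt := hpt t3 (by simp)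
  obtain ⟨r1, r2, hr, h1, hsub2⟩ := List.cons_sublist_iff.mp hsub
  obtain ⟨r3, r4, hr2, h2, hsub3⟩ := List.cons_sublist_iff.mp hsub2
  have h3 : t3 ∈ r4 := List.singleton_sublist.mp hsub3
  obtain ⟨s, s', hs⟩ := List.append_of_mem h2
  have hLs : L = (r1 ++ s) ++ t2 :: (s' ++ r4) := by
    rw [hr, hr2, hs]; simp
  -- the automorphism exchanging `x` and `t2`
  let e : Equiv.Perm (Blowup P) := Equiv.swap x t2
  have hept : ∀ z, (e z).pt = z.pt := by
    intro z
    by_cases hz1 : z = x
    · subst hz1; simp [e, p2]
    · by_cases hz2 : z = t2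
      · subst hz2; simp [e, p2]
      · simp [e, Equiv.swap_apply_of_ne_of_ne hz1 hz2]
  have helt : ∀ a b, e a < e b ↔ a < b := by
    intro a b
    rw [lt_def, lt_def, hept, hept]
  have hL' : IsLinearExtension (L.map e) := by
    refine ⟨hL.1.map e.injective, ?_, ?_⟩
    · intro z
      exact List.mem_map.mpr ⟨e.symm z, hL.2.1 _, by simp⟩
    · rw [List.pairwise_map]
      refine hL.2.2.imp ?_
      intro a b hab h
      exact hab ((helt b a).mp h)
  have hmap : L.map e = (r1 ++ s).map e ++ x :: (s' ++ r4).map e := by
    rw [hLs]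
    simp [e]
  have hval : jlt (L.map e) = jumpNumber (Blowup P) := by
    rw [jlt_map e helt, hopt]
  rw [hmap] at hL' hval
  have m1 : e t1 ∈ (r1 ++ s).map e :=
    List.mem_map.mpr ⟨t1, List.mem_append.mpr (Or.inl h1), rfl⟩
  have m3 : e t3 ∈ (s' ++ r4).map e :=
    List.mem_map.mpr ⟨t3, List.mem_append.mpr (Or.inr h3), rfl⟩
  have key1 := middle_twin _ _ x (e t1) (e t3) hL' m1 m3
    (fun z hz => by rw [lt_def] at hz ⊢; rw [hept, p1]; exact hz)
    (fun z hz => by rw [lt_def] at hz ⊢; rw [hept, p3]; exact hz)
  have key2 := restrict _ _ x hL'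
  omega

theorem jumpCritical [Fintype P] [Nonempty P] : JumpCritical (Blowup P) := by
  constructor
  · have := key (⟨Classical.arbitrary P, 0⟩ : Blowup P)
    omega
  · intro x
    have := key x
    omega

end Blowup

/-- Every finite nonempty poset `P` is an induced subposet of a jump-critical poset of the same
length, with three times as many elements. -/
theorem result.{u} (P : Type u) [PartialOrder P] [Finite P] [Nonempty P] :
    ∃ (Q : Type u) (_ : PartialOrder Q),
      Finite Q ∧ JumpCritical Q ∧ Nonempty (P ↪o Q) ∧
        Order.krullDim Q = Order.krullDim P ∧ Nat.card Q = 3 * Nat.card P := by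
  have : Fintype P := Fintype.ofFinite P
  refine ⟨Blowup P, inferInstance, inferInstance, Blowup.jumpCritical, ⟨?_⟩, ?_, ?_⟩
  · refine OrderEmbedding.ofMapLEIff (fun p => (⟨p, 0⟩ : Blowup P)) ?_
    intro a b
    rw [Blowup.le_def]
    constructor
    · rintro (h | h)
      · exact le_of_eq (congrArg Blowup.pt h)
      · exact le_of_lt h
    · intro h
      rcases eq_or_lt_of_le h with h | h
      · exact Or.inl (by rw [h])
      · exact Or.inr h
  · apply le_antisymm
    · exact Order.krullDim_le_of_strictMono (fun a : Blowup P => a.pt) (fun a b h => h)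
    · exact Order.krullDim_le_of_strictMono (fun p => (⟨p, 0⟩ : Blowup P)) (fun a b h => h)
  · rw [Nat.card_congr (Blowup.equivProd P), Nat.card_prod, Nat.card_fin, mul_comm]

end Pool.Agent.Results.MP_b5825f_co.EmbedsInJumpCritical
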